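import Pool.Agent.Q271.RC.Defs

/-!
# Closed subsets of projective space, centres of places, subvarieties
-/

set_option autoImplicit false

namespace Pool.Agent.Q96.LS

open MvPolynomial FF Pool.Agent.W602.GT Pool.Agent.Q271.RC

/-- `c` is the minimum of the orders of the coordinates `v` at the place `P`. -/
def Norm {N : ℕ} {L : Type} [Field L] [Algebra ℂ L] (P : Place ℂ L) (v : Fin (N + 1) → L)
    (c : ℤ) : Prop :=
  (∀ j, v j ≠ 0 → c ≤ P.ord (v j)) ∧ ∃ j, v j ≠ 0 ∧ P.ord (v j) = c

/-- The point `v` over the field `L` lies in the closed subset of projective space which is defined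
by the forms in `D`. -/
def LiesIn {N : ℕ} (D : Set (MvPolynomial (Fin (N + 1)) ℂ)) {L : Type} [Field L] [Algebra ℂ L]
    (v : Fin (N + 1) → L) : Prop :=
  ∀ F ∈ D, aeval v F = 0

/-- The centre of the place `P` of `L`, with respect to the point `v` over `L`, lies in the closed
subset of projective space defined by the forms in `D`: all these forms vanish at the centre. -/
def CentreIn {N : ℕ} (D : Set (MvPolynomial (Fin (N + 1)) ℂ)) {L : Type} [Field L] [Algebra ℂ L]
    (v : Fin (N + 1) → L) (P : Place ℂ L) : Prop :=
  ∀ c : ℤ, Norm P v c → ∀ F ∈ D, ∀ E : ℕ, F.IsHomogeneous E →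
    aeval v F = 0 ∨ E * c < P.ord (aeval v F)

/-- `Y - D` is ramified to order at least `m`, where `Y` is the projective variety with generic
point `b`: for all arcs in `Y` (points `v` over a field `L` with a discrete valuation `z`) on which
no `h i` vanishes and whose centre is in `Y - D`, the orders of the functions `h i (v)` are all
equal, or two of them differ by at least `m`. -/
def RamifiedOff {N n : ℕ} {K : Type} [Field K] [Algebra ℂ K] (m : ℕ) (b : Fin (N + 1) → K)
    (D : Set (MvPolynomial (Fin (N + 1)) ℂ)) (h : Fin (n + 1) → MvPolynomial (Fin (N + 1)) ℂ) :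
    Prop :=
  ∀ (L : Type) [Field L] [Algebra ℂ L] (v : Fin (N + 1) → L), IsPoint b v →
    (∀ i, aeval v (h i) ≠ 0) → ∀ z : Place ℂ L, ¬ CentreIn D v z →
    HighContact m (fun i => aeval v (h i)) z

/-- `v` is the generic point of a closed subvariety, with function field `L`, of `Y - D`, which is
not contained in the closed subset `G = 0`; here `Y` is the projective variety with generic
point `b`. -/
structure Sub {N : ℕ} {K : Type} [Field K] [Algebra ℂ K] (b : Fin (N + 1) → K)
    (D : Set (MvPolynomial (Fin (N + 1)) ℂ)) (G : MvPolynomial (Fin (N + 1)) ℂ) {L : Type}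
    [Field L] [Algebra ℂ L] (v : Fin (N + 1) → L) : Prop where
  point : IsPoint b v
  gen : IsGeneric v
  off : ¬ LiesIn D v
  ne : aeval v G ≠ 0

/-- `Y - D` is strongly of log general type, with the exceptional set `G = 0`: all closed
subvarieties of `Y - D` of positive dimension `t` which are not contained in `G = 0` are of log
general type. -/
def StronglyLGT {N : ℕ} {K : Type} [Field K] [Algebra ℂ K] (b : Fin (N + 1) → K)
    (D : Set (MvPolynomial (Fin (N + 1)) ℂ)) (G : MvPolynomial (Fin (N + 1)) ℂ) : Prop :=
  ∀ (L : Type) [Field L] [Algebra ℂ L] (v : Fin (N + 1) → L) (t : ℕ), Sub b D G v →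
    Algebra.trdeg ℂ L = t → 0 < t → LogGeneralType ℂ L t (CentreIn D v)

end Pool.Agent.Q96.LS
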