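import Pool.Agent.Q271.RC.Main

/-!
Points of maximal transcendence degree are generic points.
-/

set_option autoImplicit false

namespace Pool.Agent.Q96.LS

open MvPolynomial FF Pool.Agent.W603.LV Pool.Agent.W603.PV Pool.Agent.W602.GT Pool.Agent.Q72.NA
open Pool.Agent.Q271.RC

/-- ratios with a fixed denominator -/
theorem adjoin_fixed {N : ℕ} {K : Type} [Field K] [Algebra ℂ K] {a : Fin (N + 1) → K}
    (ha : IntermediateField.adjoin ℂ {g : K | ∃ i j, a j ≠ 0 ∧ g = a i / a j} = ⊤)
    {j : Fin (N + 1)} (hj : a j ≠ 0) :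
    IntermediateField.adjoin ℂ (Set.range fun i => a i / a j) = ⊤ := by
  rw [eq_top_iff, ← ha, IntermediateField.adjoin_le_iff]
  rintro _ ⟨i, l, hl, rfl⟩
  have h1 : a i / a l = (a i / a j) / (a l / a j) := by
    field_simp
  rw [h1]
  exact div_mem (IntermediateField.subset_adjoin _ _ ⟨i, rfl⟩)
    (IntermediateField.subset_adjoin _ _ ⟨l, rfl⟩)

theorem inj_of_trdeg {R L : Type} [CommRing R] [IsDomain R] [Algebra ℂ R] [Field L] [Algebra ℂ L]
    (φ : R →ₐ[ℂ] L) (hgen : IntermediateField.adjoin ℂ (Set.range φ) = ⊤) {d t : ℕ}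
    (hR : Algebra.trdeg ℂ R ≤ d) (hL : Algebra.trdeg ℂ L = t) :
    t ≤ d ∧ (t = d → Function.Injective φ) := by
  classical
  have halg : Algebra.IsAlgebraic (Algebra.adjoin ℂ (Set.range φ)) L := by
    rw [← IntermediateField.isAlgebraic_adjoin_iff_top, hgen]
    exact ⟨fun z => isAlgebraic_algebraMap (⟨z, IntermediateField.mem_top⟩ :
      (⊤ : IntermediateField ℂ L))⟩
  obtain ⟨T, hT, hTb⟩ := exists_isTranscendenceBasis_subset (R := ℂ) (Set.range φ)
  have hcard : Cardinal.mk T = t := by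
    rw [hTb.cardinalMk_eq_trdeg, hL]
  have hTfin : Finite T := by
    rw [← Cardinal.lt_aleph0_iff_finite, hcard]
    exact Cardinal.natCast_lt_aleph0
  choose x hx using fun τ : T => hT τ.2
  have hxi : AlgebraicIndependent ℂ x := by
    refine AlgebraicIndependent.of_comp φ ?_
    have h1 : (φ ∘ x) = ((↑) : T → L) := funext hx
    rw [h1]
    exact hTb.1
  have h1 : (t : Cardinal) ≤ d := by
    rw [← hcard]
    have h2 := hxi.lift_cardinalMk_le_trdeg
    simp only [Cardinal.lift_id] at h2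
    exact h2.trans hR
  have h2 : t ≤ d := by exact_mod_cast h1
  refine ⟨h2, fun htd => ?_⟩
  have hb : IsTranscendenceBasis ℂ x := by
    refine hxi.isTranscendenceBasis_of_lift_trdeg_le_of_finite ?_
    simp only [Cardinal.lift_id]
    rw [hcard, htd]
    exact hR
  have halg2 := hb.isAlgebraic
  rw [injective_iff_map_eq_zero]
  intro f hf
  by_contra hf0
  obtain ⟨q, hq0, hq⟩ := (halg2.isAlgebraic f).exists_nonzero_coeff_and_aeval_eq_zero
    (mem_nonZeroDivisors_of_ne_zero hf0)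
  -- the constant coefficient is mapped to zero
  have h3 : φ ((q.coeff 0 : Algebra.adjoin ℂ (Set.range x)) : R) = 0 := by
    have h4 := congrArg φ hq
    rw [map_zero, Polynomial.aeval_eq_sum_range, map_sum, Finset.sum_eq_single 0] at h4
    · rw [pow_zero, Algebra.smul_def, mul_one] at h4
      exact h4
    · intro i _ hi
      rw [Algebra.smul_def, map_mul, map_pow, hf, zero_pow hi, mul_zero]
    · intro h
      exact absurd (Finset.mem_range.2 (Nat.succ_pos _)) h
  apply hq0
  obtain ⟨p, hp⟩ : ∃ p : MvPolynomial T ℂ, aeval x p = ((q.coeff 0 : Algebra.adjoin ℂ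
      (Set.range x)) : R) := by
    have h4 : ∀ z ∈ Algebra.adjoin ℂ (Set.range x), ∃ p : MvPolynomial T ℂ, aeval x p = z := by
      intro z hz
      rw [Algebra.adjoin_range_eq_range_aeval] at hz
      exact hz
    exact h4 _ (q.coeff 0).2
  have h5 : aeval ((↑) : T → L) p = 0 := by
    rw [← h3, ← hp]
    have h6 : (aeval ((↑) : T → L) : MvPolynomial T ℂ →ₐ[ℂ] L) = φ.comp (aeval x) := by
      apply MvPolynomial.algHom_ext
      intro i
      simp [hx]
    rw [h6]
    rfl
  have h6 : p = 0 := by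
    have h7 := hTb.1
    rw [algebraicIndependent_iff] at h7
    exact h7 p h5
  apply Subtype.ext
  rw [← hp, h6, map_zero]
  rfl

/-- **Points of maximal transcendence degree.** -/
theorem gen_point {N : ℕ} {K : Type} [Field K] [Algebra ℂ K] {b : Fin (N + 1) → K}
    (hb : IsGeneric b) {d : ℕ} (hd : Algebra.trdeg ℂ K = d) :
    ∃ (B : MvPolynomial (Fin (N + 1)) ℂ) (E : ℕ), B.IsHomogeneous E ∧ aeval b B ≠ 0 ∧
      ∀ (L : Type) [Field L] [Algebra ℂ L] (v : Fin (N + 1) → L) (t : ℕ), IsPoint b v →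
        IsGeneric v → aeval v B ≠ 0 → Algebra.trdeg ℂ L = t → t ≤ d ∧
        (t = d → ∃ (σ : K →ₐ[ℂ] L) (l : L), l ≠ 0 ∧ (∀ i, v i = l * σ (b i)) ∧
          Function.Surjective σ) := by
  classical
  obtain ⟨j, hj⟩ := hb.1
  let R : Subalgebra ℂ K := Algebra.adjoin ℂ (Set.range fun i => b i / b j)
  have hR : R.FG := ⟨Finset.univ.image fun i => b i / b j, by
    simp only [Finset.coe_image, Finset.coe_univ, Set.image_univ]
    rfl⟩
  have hbR : ∀ i, b i / b j ∈ R := fun i => Algebra.subset_adjoin ⟨i, rfl⟩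
  obtain ⟨B, E, hB, hBb, hev⟩ := evalW (F := ℂ) (fun f => ratF_of_adjoin hb.2 f) R hR ∅
    (fun w hw => absurd hw (Finset.notMem_empty w))
  refine ⟨B * X j, E + 1, hB.mul (isHomogeneous_X _ _), ?_, ?_⟩
  · rw [map_mul, aeval_X]
    exact mul_ne_zero hBb hj
  intro L _ _ v t hv hvg hBv ht
  rw [map_mul, aeval_X] at hBv
  have hvj : v j ≠ 0 := right_ne_zero_of_mul hBv
  obtain ⟨φ, hφ, -⟩ := hev L v (fun G D hG hGb => hv G D hG hGb) (left_ne_zero_of_mul hBv)
  have hφb : ∀ i, φ ⟨b i / b j, hbR i⟩ = v i / v j := by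
    intro i
    have h1 := hφ ⟨b i / b j, hbR i⟩ (X i) (X j) 1 (isHomogeneous_X _ _) (isHomogeneous_X _ _) (by
      rw [aeval_X, aeval_X]
      show b i / b j * b j = b i
      field_simp)
    rw [aeval_X, aeval_X] at h1
    rw [eq_div_iff hvj, h1]
  have hgen : IntermediateField.adjoin ℂ (Set.range φ) = ⊤ := by
    rw [eq_top_iff, ← adjoin_fixed hvg.2 hvj, IntermediateField.adjoin_le_iff]
    rintro _ ⟨i, rfl⟩
    refine IntermediateField.subset_adjoin _ _ ⟨⟨b i / b j, hbR i⟩, hφb i⟩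
  have hRd : Algebra.trdeg ℂ R ≤ d := by
    rw [← hd]
    exact trdeg_le_of_injective R.val Subtype.val_injective
  obtain ⟨h1, h2⟩ := inj_of_trdeg φ hgen hRd ht
  refine ⟨h1, fun htd => ?_⟩
  have hinj := h2 htd
  have hfr : IsFractionRing R K := .of_field _ _ fun z => by
    have hz : z ∈ IntermediateField.adjoin ℂ (Set.range fun i => b i / b j) := by
      rw [adjoin_fixed hb.2 hj]
      exact IntermediateField.mem_top
    obtain ⟨x, hx, y, hy, e⟩ := IntermediateField.mem_adjoin_iff_div.mp hz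
    exact ⟨⟨x, hx⟩, ⟨y, hy⟩, e⟩
  let σ : K →ₐ[ℂ] L := IsFractionRing.liftAlgHom (g := φ) hinj
  have hσ : ∀ r : R, σ (r : K) = φ r := fun r =>
    IsFractionRing.lift_algebraMap hinj r
  have hσb : ∀ i, σ (b i / b j) = v i / v j := by
    intro i
    rw [← hφb i]
    exact hσ ⟨b i / b j, hbR i⟩
  have hσj : σ (b j) ≠ 0 := (map_ne_zero σ).2 hj
  refine ⟨σ, v j / σ (b j), div_ne_zero hvj hσj, ?_, ?_⟩
  · intro i
    have h3 := hσb i
    rw [map_div₀] at h3
    field_simp
    field_simp at h3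
    linear_combination -h3
  · intro z
    have hz : z ∈ IntermediateField.adjoin ℂ (Set.range fun i => v i / v j) := by
      rw [adjoin_fixed hvg.2 hvj]
      exact IntermediateField.mem_top
    have h3 : IntermediateField.adjoin ℂ (Set.range fun i => v i / v j) ≤ σ.fieldRange := by
      rw [IntermediateField.adjoin_le_iff]
      rintro _ ⟨i, rfl⟩
      exact ⟨b i / b j, hσb i⟩
    exact h3 hz

end Pool.Agent.Q96.LS
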