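import Pool.Agent.Q271.RC.GT

/-!
Quasi-projective covers which are ramified to high order over the boundary are of logarithmic
general type.
-/

set_option autoImplicit false

namespace Pool.Agent.Q96.LS

open FF MvPolynomial Pool.Agent.W603.LV Pool.Agent.W602.GT Pool.Agent.W619.Y Pool.Agent.W619.TW
open Pool.Agent.Q271.RC

variable {d : ℕ}

theorem reg_of_log {K : Type} [Field K] [Algebra ℂ K] {P : Place ℂ K} {D : Derivation ℂ K K}
    (h : DerLog P D) : DerReg P D := by
  intro f hf
  by_cases h0 : f = 0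
  · rw [h0, map_zero]
    exact P.reg_zero
  · have h1 := P.reg_mul (h f) hf
    rwa [div_mul_cancel₀ _ h0] at h1

/-- **Quasi-projective covers which are ramified to high order over the boundary are of
logarithmic general type.** -/
theorem lgt_cover {n : ℕ} (K : Type) [Field K] [Algebra ℂ K] [Algebra.EssFiniteType ℂ K]
    (x : Fin n → K) (hx0 : ∀ i, x i ≠ 0)
    (hlgt : LogGeneralType ℂ K d (fun P => ∃ i, P.ord (x i : K) ≠ 0)) :
    ∃ m0 : ℕ, ∀ (K' : Type) [Field K'] [Algebra ℂ K'] [Algebra K K'] [IsScalarTower ℂ K K']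
      [FiniteDimensional K K'] (Bd' : Place ℂ K' → Prop),
      (∀ P : Place ℂ K', Divisorial d P → ¬ Bd' P → (∀ i, P.ord (algebraMap K K' (x i)) = 0) ∨
        (m0 : ℤ) ≤ ∑ i, |P.ord (algebraMap K K' (x i))|) → LogGeneralType ℂ K' d Bd' := by
  classical
  set Bd : Place ℂ K → Prop := fun P => ∃ i, P.ord (x i : K) ≠ 0 with hBd
  obtain ⟨htr, N, hN, ω, hω1, hω2, hω3, D, hD, hind⟩ := hlgt
  obtain ⟨y, hy⟩ := Pool.Agent.W636.PG.exists_basis ℂ K d htr
  obtain ⟨E, hE⟩ := Pool.Agent.W636.PG.exists_duals ℂ K d y hy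
  have hval : ∀ (l : Fin (d + 1)) D', ω l D' = dt y D' ^ N * ω l E := fun l D' =>
    Pool.Agent.W636.PG.form_eq ℂ K d N y hy E hE (ω l) (hω1 l) D'
  set c : Fin (d + 1) → K := fun l => ω l E with hc
  have hdt0 : dt y D ^ N ≠ 0 := by
    intro h0
    apply hD
    rw [hval, h0, zero_mul]
  have hc0 : c 0 ≠ 0 := by
    intro h0
    apply hD
    rw [hval]
    show dt y D ^ N * c 0 = 0
    rw [h0, mul_zero]
  have hcOK : ∀ j, OK Bd y N (c j) := by
    intro j P hP D' hD'
    have e : dt y D' ^ N * c j = ω j D' := (hval j D').symm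
    rw [e]
    rcases hD' with ⟨h1, h2⟩ | ⟨h1, h2⟩
    · exact hω3 P hP h1 j D' h2
    · exact hω2 P hP j D' h2
  have hratio : (fun i : Fin d => ω i.succ D / ω 0 D) = fun i : Fin d => c i.succ / c 0 := by
    funext i
    rw [hval i.succ, hval 0, mul_div_mul_left _ _ hdt0]
  rw [hratio] at hind
  -- the ratios are a transcendence basis
  have hbasis : IsTranscendenceBasis ℂ (fun i : Fin d => c i.succ / c 0) := by
    refine hind.isTranscendenceBasis_of_lift_trdeg_le_of_finite ?_
    rw [htr]
    simp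
  have halg : ∀ z : K, IsAlgebraic (IntermediateField.adjoin ℂ
      (Set.range fun i : Fin d => c i.succ / c 0)) z := fun z =>
    hbasis.isAlgebraic_field.isAlgebraic z
  choose W s hs0 hs1 hs2 hs3 using fun i : Fin n => OK.exists_mul_inv hc0 hcOK halg (x i)
  let Wt : ℕ := N + ∑ i, W i
  refine ⟨d * Wt, ?_⟩
  intro K' _ _ _ _ _ Bd' hram
  have hpull : ∀ (w : ℕ) (e : K), OK Bd y w e → IsSec ℂ K' d (BdUp Bd) {(1 : K')} w 0
      (fun D => dt (fun b => algebraMap K K' (y b)) D ^ w * algebraMap K K' e) := by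
    intro w e he
    have h1 := Pool.Agent.Y174.pPULL ℂ K K' d htr
      (fun y hy => Pool.Agent.W824.PG.fin_adj inferInstance y hy) Bd {1} w 0 y E hy hE
      (fun D => dt y D ^ w * e) ⟨pluri_dt y w e, ?_, ?_⟩
    · have hdet : dt y E = 1 := by
        unfold dt
        have h2 : (Matrix.of fun i j => E i (y j)) = 1 := by
          ext a b
          rw [Matrix.of_apply, Matrix.one_apply]
          exact hE a b
        rw [h2, Matrix.det_one]
      rw [hdet, one_pow, one_mul, Finset.image_singleton, map_one] at h1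
      exact h1
    · intro v hv hb D' hD'
      exact dom_of_ge (he v hv D' (Or.inl ⟨hb, hD'⟩))
    · intro v hv hb D' hD'
      exact dom_of_ge (he v hv D' (Or.inr ⟨hb, hD'⟩))
  let y' : Fin d → K' := fun b => algebraMap K K' (y b)
  have hy' : IsTranscendenceBasis ℂ y' := hy.algebraMap_comp
  obtain ⟨E', hE'⟩ := Pool.Agent.W636.PG.exists_duals ℂ K' d y' hy'
  have hdet' : dt y' E' = 1 := by
    unfold dt
    have h2 : (Matrix.of fun i j => E' i (y' j)) = 1 := by
      ext a b
      rw [Matrix.of_apply, Matrix.one_apply]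
      exact hE' a b
    rw [h2, Matrix.det_one]
  let σ : K := ∏ i, s i
  have hσ : σ ≠ 0 := Finset.prod_ne_zero_iff.2 fun i _ => hs0 i
  have htr' : Algebra.trdeg ℂ K' = d := by
    have h1 := hy'.cardinalMk_eq_trdeg
    rw [← h1]
    simp
  -- split of the forms
  have hsplit : ∀ (D' : Fin d → Derivation ℂ K' K') (j : Fin (d + 1)),
      dt y' D' ^ Wt * algebraMap K K' (c j * σ) =
        (dt y' D' ^ N * algebraMap K K' (c j)) *
          ∏ i, (dt y' D' ^ W i * algebraMap K K' (s i)) := by
    intro D' j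
    rw [Finset.prod_mul_distrib, Finset.prod_pow_eq_pow_sum, pow_add, map_mul, map_prod]
    ring
  refine ⟨htr', Wt, by omega, fun j D' => dt y' D' ^ Wt * algebraMap K K' (c j * σ),
    fun j => pluri_dt y' Wt _, ?_, ?_, E', ?_, ?_⟩
  · intro P hP j D' hD'
    show Ge P 0 (dt y' D' ^ Wt * algebraMap K K' (c j * σ))
    by_cases hb : BdUp Bd P
    · rw [hsplit]
      have h1 : Ge P 0 (dt y' D' ^ N * algebraMap K K' (c j)) :=
        ge_of_dom ((hpull N (c j) (hcOK j)).2.2 P hP hb D' hD')
      have h2 : ∀ i, Ge P 0 (dt y' D' ^ W i * algebraMap K K' (s i)) := fun i =>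
        ge_of_dom ((hpull (W i) _ (hs1 i)).2.2 P hP hb D' hD')
      have h3 := Ge.prod (P := P) Finset.univ
        (fun i => dt y' D' ^ W i * algebraMap K K' (s i)) (fun i => 0) (fun i _ => h2 i)
      rw [Finset.sum_const_zero] at h3
      have h4 := h1.mul h3
      rwa [add_zero] at h4
    · have hDr : ∀ i, DerReg P (D' i) := fun i => reg_of_log (hD' i)
      rw [hsplit]
      have h1 : Ge P 0 (dt y' D' ^ N * algebraMap K K' (c j)) :=
        ge_of_dom ((hpull N (c j) (hcOK j)).2.1 P hP hb D' hDr)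
      have h2 : ∀ i, Ge P 0 (dt y' D' ^ W i * algebraMap K K' (s i)) := fun i =>
        ge_of_dom ((hpull (W i) _ (hs1 i)).2.1 P hP hb D' hDr)
      have h3 := Ge.prod (P := P) Finset.univ
        (fun i => dt y' D' ^ W i * algebraMap K K' (s i)) (fun i => 0) (fun i _ => h2 i)
      rw [Finset.sum_const_zero] at h3
      have h4 := h1.mul h3
      rwa [add_zero] at h4
  · intro P hP hnb j D' hD'
    show Ge P 0 (dt y' D' ^ Wt * algebraMap K K' (c j * σ))
    by_cases hb : BdUp Bd P
    · -- the boundary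
      have hm : ((d * Wt : ℕ) : ℤ) ≤ ∑ i, |P.ord (algebraMap K K' (x i))| := by
        rcases hram P hP hnb with h0 | h0
        · exfalso
          obtain ⟨v, e, hov, i, hi⟩ := hb
          have h2 := h0 i
          rw [hov.2] at h2
          rcases mul_eq_zero.1 h2 with h3 | h3
          · have := hov.1
            omega
          · exact hi h3
        · exact h0
      obtain ⟨π, hπ0, hπ⟩ := P.surj
      -- logarithmic vector fields
      have hlog : ∀ D'' : Fin d → Derivation ℂ K' K', (∀ i, DerLog P (D'' i)) →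
          Ge P ((d * Wt : ℕ) : ℤ) (dt y' D'' ^ Wt * algebraMap K K' (c j * σ)) := by
        intro D'' hD''
        rw [hsplit]
        have h1 : Ge P 0 (dt y' D'' ^ N * algebraMap K K' (c j)) :=
          ge_of_dom ((hpull N (c j) (hcOK j)).2.2 P hP hb D'' hD'')
        have h2 : ∀ i, Ge P |P.ord (algebraMap K K' (x i))|
            (dt y' D'' ^ W i * algebraMap K K' (s i)) := by
          intro i
          have hxi : algebraMap K K' (x i) ≠ 0 := (map_ne_zero _).2 (hx0 i)
          have h3 : Ge P 0 (dt y' D'' ^ W i * algebraMap K K' (s i * x i)) :=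
            ge_of_dom ((hpull (W i) _ (hs2 i)).2.2 P hP hb D'' hD'')
          have h4 : Ge P 0 (dt y' D'' ^ W i * algebraMap K K' (s i * (x i)⁻¹)) :=
            ge_of_dom ((hpull (W i) _ (hs3 i)).2.2 P hP hb D'' hD'')
          rw [map_mul, ← mul_assoc, mul_comm] at h3
          rw [map_mul, map_inv₀, ← mul_assoc, mul_comm] at h4
          have h5 := Ge.of_mul hxi h3
          have h6 := Ge.of_mul (inv_ne_zero hxi) h4
          rw [P.ord_inv] at h6
          rcases abs_cases (P.ord (algebraMap K K' (x i))) with ⟨h7, -⟩ | ⟨h7, -⟩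
          · rw [h7]
            exact h6.mono (by omega)
          · rw [h7]
            exact h5.mono (by omega)
        have h3 := Ge.prod (P := P) Finset.univ
          (fun i => dt y' D'' ^ W i * algebraMap K K' (s i))
          (fun i => |P.ord (algebraMap K K' (x i))|) (fun i _ => h2 i)
        exact (h1.mul h3).mono (by rw [zero_add]; exact hm)
      have h1 := hlog (fun i => π • D' i) (fun i => log_of_reg hπ (hD' i))
      rw [dt_smul, mul_pow, mul_assoc] at h1
      have hπw : (π ^ d) ^ Wt ≠ 0 := pow_ne_zero _ (pow_ne_zero _ hπ0)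
      have h2 := Ge.of_mul hπw h1
      refine h2.mono ?_
      rw [P.ord_pow, P.ord_pow, hπ]
      push_cast
      ring_nf
      exact le_rfl
    · rw [hsplit]
      have h1 : Ge P 0 (dt y' D' ^ N * algebraMap K K' (c j)) :=
        ge_of_dom ((hpull N (c j) (hcOK j)).2.1 P hP hb D' hD')
      have h2 : ∀ i, Ge P 0 (dt y' D' ^ W i * algebraMap K K' (s i)) := fun i =>
        ge_of_dom ((hpull (W i) _ (hs1 i)).2.1 P hP hb D' hD')
      have h3 := Ge.prod (P := P) Finset.univ
        (fun i => dt y' D' ^ W i * algebraMap K K' (s i)) (fun i => 0) (fun i _ => h2 i)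
      rw [Finset.sum_const_zero] at h3
      have h4 := h1.mul h3
      rwa [add_zero] at h4
  · change dt y' E' ^ Wt * algebraMap K K' (c 0 * σ) ≠ 0
    rw [hdet', one_pow, one_mul]
    exact (map_ne_zero _).2 (mul_ne_zero hc0 hσ)
  · have h1 : (fun l : Fin d => dt y' E' ^ Wt * algebraMap K K' (c l.succ * σ) /
        (dt y' E' ^ Wt * algebraMap K K' (c 0 * σ))) = fun l : Fin d =>
          IsScalarTower.toAlgHom ℂ K K' (c l.succ / c 0) := by
      funext l
      rw [hdet', one_pow, one_mul, one_mul]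
      change _ = algebraMap K K' _
      rw [← map_div₀, mul_div_mul_right _ _ hσ]
    rw [h1]
    exact (AlgHom.algebraicIndependent_iff (IsScalarTower.toAlgHom ℂ K K')
      (algebraMap K K').injective).2 hind

end Pool.Agent.Q96.LS
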