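import Pool.Agent.Q96.LS.Cur
import Pool.Agent.Q96.LS.Gt
import Pool.Agent.Q96.LS.Gen
import Pool.Agent.Q96.LS.Defs

/-!
# Ramified covers: log general type of the closed curves
-/

set_option autoImplicit false

namespace Pool.Agent.Q96.LS

open MvPolynomial FF Pool.Agent.W603.LV Pool.Agent.W603.PV Pool.Agent.W602.GT Pool.Agent.Q72.NA
open Pool.Agent.Q271.RC

/-- **Quasi-projective ramified covers are of log general type.** -/
theorem cover_lgt {N n d : ℕ} {K : Type} [Field K] [Algebra ℂ K] {a : Fin (N + 1) → K}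
    {f : Fin (n + 1) → MvPolynomial (Fin (N + 1)) ℂ} {e : ℕ} (hX : IsPair d a f e) :
    ∃ m0 : ℕ, ∀ m, m0 ≤ m → ∀ (N' : ℕ) (K' : Type) [Field K'] [Algebra ℂ K'] [Algebra K K']
      [IsScalarTower ℂ K K'] (b : Fin (N' + 1) → K')
      (g : Fin (N + 1) → MvPolynomial (Fin (N' + 1)) ℂ) (e' : ℕ), IsCover a b g e' →
      ∀ Bd' : Place ℂ K' → Prop,
      (∀ P, ¬ Bd' P → HighContact m (fun i => aeval b (bind₁ g (f i))) P) →
      LogGeneralType ℂ K' d Bd' := by
  have : Algebra.EssFiniteType ℂ K := ess_of_adjoin hX.gen.2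
  let x : Fin (n + 1) → K := fun i => aeval a (f i) / aeval a (f 0)
  have hx0 : ∀ i, x i ≠ 0 := fun i => div_ne_zero (hX.ne i) (hX.ne 0)
  have hBd : (fun P : Place ℂ K => ∃ i, P.ord (aeval a (f i)) ≠ P.ord (aeval a (f 0))) =
      fun P => ∃ i, P.ord (x i) ≠ 0 := by
    funext P
    simp only [x, P.ord_div (hX.ne _) (hX.ne 0), sub_ne_zero]
  have hlgt := hX.lgt
  rw [hBd] at hlgt
  obtain ⟨m0, hm0⟩ := lgt_cover K x hx0 hlgt
  refine ⟨m0 + 1, fun m hm N' K' _ _ _ _ b g e' hY Bd' hram => ?_⟩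
  have h1 : Algebra.EssFiniteType ℂ K' := ess_of_adjoin hY.gen.2
  have h2 := hY.alg
  have h3 : FiniteDimensional K K' := finiteDimensional_of
  obtain ⟨c, hc, hgc⟩ := hY.map
  have hval : ∀ i, aeval b (bind₁ g (f i)) = c ^ e * algebraMap K K' (aeval a (f i)) := fun i =>
    gen_comp a b g c hgc (hX.hom i)
  have hfi : ∀ i, algebraMap K K' (aeval a (f i)) ≠ 0 := fun i => (map_ne_zero _).2 (hX.ne i)
  refine hm0 K' Bd' fun P _ hP => ?_
  have hord : ∀ i, P.ord (algebraMap K K' (x i)) =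
      P.ord (aeval b (bind₁ g (f i))) - P.ord (aeval b (bind₁ g (f 0))) := by
    intro i
    rw [hval, hval, P.ord_mul (pow_ne_zero _ hc) (hfi i), P.ord_mul (pow_ne_zero _ hc) (hfi 0)]
    simp only [x]
    rw [map_div₀, P.ord_div (hfi i) (hfi 0)]
    ring
  rcases hram P hP with h | ⟨i, j, h⟩
  · left
    intro i
    rw [hord, h i, sub_self]
  · right
    have hij : i ≠ j := by
      rintro rfl
      rw [sub_self] at h
      omega
    have h4 : |P.ord (algebraMap K K' (x i))| + |P.ord (algebraMap K K' (x j))| ≤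
        ∑ i, |P.ord (algebraMap K K' (x i))| := by
      rw [← Finset.sum_pair (f := fun i => |P.ord (algebraMap K K' (x i))|) hij]
      exact Finset.sum_le_sum_of_subset_of_nonneg (Finset.subset_univ _)
        fun _ _ _ => abs_nonneg _
    have h5 := le_abs_self (P.ord (algebraMap K K' (x i)))
    have h6 := neg_le_abs (P.ord (algebraMap K K' (x j)))
    have h8 := hord i
    have h9 := hord j
    have h10 : (m : ℤ) ≤ P.ord (aeval b (bind₁ g (f i))) - P.ord (aeval b (bind₁ g (f j))) := h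
    have h7 : (m0 : ℤ) + 1 ≤ m := by exact_mod_cast hm
    omega

/-- the places with centre in a closed subset -/
theorem fin_centre {N : ℕ} {L : Type} [Field L] [Algebra ℂ L] [IsFF ℂ L] (v : Fin (N + 1) → L)
    (hv : ∃ j, v j ≠ 0) (D : Set (MvPolynomial (Fin (N + 1)) ℂ))
    (hD : ∀ F ∈ D, ∃ E, F.IsHomogeneous E) (h : ¬ LiesIn D v) :
    {P : Place ℂ L | CentreIn D v P}.Finite := by
  classical
  unfold LiesIn at h
  push Not at h
  obtain ⟨F, hF, hFv⟩ := h
  obtain ⟨E, hE⟩ := hD F hF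
  obtain ⟨T, hT⟩ := exists_supp (k := ℂ) Finset.univ v
  refine (T.finite_toSet.union (finite_support (k := ℂ) (aeval v F))).subset fun P hP => ?_
  by_contra hcon
  rw [Set.mem_union, not_or] at hcon
  obtain ⟨h1, h2⟩ := hcon
  have h3 : ∀ j, P.ord (v j) = 0 := fun j => by
    by_contra h
    exact h1 (hT j (Finset.mem_univ j) P h)
  have h4 : P.ord (aeval v F) = 0 := by
    by_contra h
    exact h2 h
  obtain ⟨j, hj⟩ := hv
  rcases hP 0 ⟨fun i _ => (h3 i).ge, j, hj, h3 j⟩ F hF E hE with h5 | h5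
  · exact hFv h5
  · rw [h4, mul_zero] at h5
    exact lt_irrefl _ h5

theorem pht_pos {N : ℕ} {L : Type} [Field L] [Algebra ℂ L] [IsFF ℂ L] (v : Fin (N + 1) → L)
    (hv : Nonconst v) : 0 < pht ℂ v := by
  obtain ⟨i, j, hj, hij⟩ := hv
  refine lt_of_lt_of_le ?_ (hgt_ratio_le v hj i)
  rw [hgt_eq_finrank hij]
  have : FiniteDimensional (IntermediateField.adjoin ℂ {v i / v j}) L := IsFF.finite hij
  have h3 : 0 < Module.finrank (IntermediateField.adjoin ℂ {v i / v j}) L := Module.finrank_pos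
  exact_mod_cast h3

theorem nonconst_of {N : ℕ} {L : Type} [Field L] [Algebra ℂ L] {v : Fin (N + 1) → L}
    (hv : IsGeneric v) (ht : Algebra.trdeg ℂ L = (1 : ℕ)) : Nonconst v := by
  by_contra hcon
  unfold Nonconst at hcon
  push Not at hcon
  have h1 : Algebra.IsAlgebraic ℂ (IntermediateField.adjoin ℂ
      {g : L | ∃ i j, v j ≠ 0 ∧ g = v i / v j}) := by
    refine IntermediateField.isAlgebraic_adjoin fun x hx => ?_
    obtain ⟨i, j, hj, rfl⟩ := hx
    have h2 := hcon i j hj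
    unfold Transcendental at h2
    rw [not_not] at h2
    exact h2.isIntegral
  rw [hv.2] at h1
  have h2 : Algebra.IsAlgebraic ℂ L := ⟨fun z => by
    have h3 := h1.isAlgebraic ⟨z, IntermediateField.mem_top⟩
    exact h3.algebraMap (A := L)⟩
  rw [trdeg_eq_zero_iff.2 h2] at ht
  simp at ht

/-- **The main theorem.** -/
theorem main {N n d : ℕ} {K : Type} [Field K] [Algebra ℂ K] {a : Fin (N + 1) → K}
    {f : Fin (n + 1) → MvPolynomial (Fin (N + 1)) ℂ} {e : ℕ} (hX : IsPair d a f e) :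
    ∃ m : ℕ, ∀ (N' : ℕ) (K' : Type) [Field K'] [Algebra ℂ K'] [Algebra K K']
      [IsScalarTower ℂ K K'] (b : Fin (N' + 1) → K')
      (g : Fin (N + 1) → MvPolynomial (Fin (N' + 1)) ℂ) (e' : ℕ), IsCover a b g e' →
      ∀ D : Set (MvPolynomial (Fin (N' + 1)) ℂ), (∀ F ∈ D, ∃ E, F.IsHomogeneous E) →
      RamifiedOff m b D (fun i => bind₁ g (f i)) →
      LogGeneralType ℂ K' d (CentreIn D b) ∧
      ∃ (G : MvPolynomial (Fin (N' + 1)) ℂ) (E A : ℕ), G.IsHomogeneous E ∧ aeval b G ≠ 0 ∧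
        (∀ (L : Type) [Field L] [Algebra ℂ L] [IsFF ℂ L] (v : Fin (N' + 1) → L), Sub b D G v →
          LogGeneralType ℂ L 1 (CentreIn D v) ∧
          0 < pht ℂ v ∧ pht ℂ v ≤ A * (canDeg ℂ L + {P : Place ℂ L | CentreIn D v P}.ncard)) ∧
        (d ≤ 2 → StronglyLGT b D G) := by
  obtain ⟨m1, hm1⟩ := cover_linear hX
  obtain ⟨m2, hm2⟩ := cover_lgt hX
  refine ⟨m1 + m2, fun N' K' _ _ _ _ b g e' hY D hD hram => ?_⟩
  obtain ⟨c, hc, hgc⟩ := hY.map
  have hval : ∀ i, aeval b (bind₁ g (f i)) = c ^ e * algebraMap K K' (aeval a (f i)) := fun i =>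
    gen_comp a b g c hgc (hX.hom i)
  have hne : ∀ i, aeval b (bind₁ g (f i)) ≠ 0 := fun i => by
    rw [hval]
    exact mul_ne_zero (pow_ne_zero _ hc) ((map_ne_zero _).2 (hX.ne i))
  have hlgt : LogGeneralType ℂ K' d (CentreIn D b) :=
    hm2 (m1 + m2) (by omega) N' K' b g e' hY _ fun P hP =>
      hram K' b (fun _ _ _ h => h) hne P hP
  refine ⟨hlgt, ?_⟩
  obtain ⟨G, E, A, hG, hGb, hmain⟩ := hm1 (m1 + m2) (by omega) N' K' b g e' hY
  obtain ⟨B, E2, hB, hBb, hgen⟩ := gen_point hY.gen hlgt.1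
  have hcurve : ∀ (L : Type) [Field L] [Algebra ℂ L] [IsFF ℂ L] (v : Fin (N' + 1) → L),
      Sub b D (G * B) v → LogGeneralType ℂ L 1 (CentreIn D v) ∧
      0 < pht ℂ v ∧ pht ℂ v ≤ (5 * A : ℕ) *
        (canDeg ℂ L + {P : Place ℂ L | CentreIn D v P}.ncard) := by
    intro L _ _ _ v hv
    have hGv : aeval v G ≠ 0 := by
      have := hv.ne
      rw [map_mul] at this
      exact left_ne_zero_of_mul this
    have hnc : Nonconst v := nonconst_of hv.gen (by
      rw [IsFF.trdeg (k := ℂ) (K := L)]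
      simp)
    have hfin := fin_centre v hv.gen.1 D hD hv.off
    have hpt : PtF (F := ℂ) b v := fun H E hH hHb => hv.point H E hH hHb
    obtain ⟨h1, h2⟩ := hmain L v hpt hGv
    obtain ⟨-, h3⟩ := h2 hfin.toFinset (fun z hz => hram L v hv.point h1 z (by
      rw [Set.Finite.mem_toFinset] at hz
      exact hz))
    have h4 := h3 hnc
    have h5 := pht_pos v hnc
    rw [Set.ncard_eq_toFinset_card _ hfin]
    refine ⟨?_, h5, h4⟩
    have h6 : 0 < canDeg ℂ L + hfin.toFinset.card := by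
      by_contra hcon
      rw [not_lt] at hcon
      have h7 := mul_nonpos_of_nonneg_of_nonpos (Int.natCast_nonneg (5 * A)) hcon
      linarith
    have h8 := lgt_one hfin.toFinset h6
    have h9 : (fun P : Place ℂ L => P ∈ hfin.toFinset) = CentreIn D v := by
      funext P
      rw [Set.Finite.mem_toFinset]
      rfl
    rwa [h9] at h8
  refine ⟨G * B, E + E2, 5 * A, hG.mul hB, by rw [map_mul]; exact mul_ne_zero hGb hBb, hcurve,
    fun hd2 => ?_⟩
  intro L _ _ v t hv ht ht0
  have hBv : aeval v B ≠ 0 := by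
    have := hv.ne
    rw [map_mul] at this
    exact right_ne_zero_of_mul this
  obtain ⟨htd, hiso⟩ := hgen L v t hv.point hv.gen hBv ht
  by_cases ht1 : t = 1
  · subst ht1
    have hff : IsFF ℂ L := ⟨ess_of_adjoin hv.gen.2, by rw [ht]; simp⟩
    exact (hcurve L v hv).1
  · obtain rfl : t = d := by omega
    obtain ⟨σ, l, hl, hvl, hσ⟩ := hiso rfl
    let alg : Algebra K L := ((σ : K' →+* L).comp (algebraMap K K')).toAlgebra
    have hmap : ∀ z : K, algebraMap K L z = σ (algebraMap K K' z) := fun z => rfl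
    have htow : IsScalarTower ℂ K L := IsScalarTower.of_algebraMap_eq fun z => by
      rw [hmap, ← IsScalarTower.algebraMap_apply ℂ K K', σ.commutes]
    have halg := hY.alg
    have hcov : IsCover a v g e' := by
      refine ⟨hv.gen, hY.hom, ⟨l ^ e' * σ c, mul_ne_zero (pow_ne_zero _ hl)
        ((map_ne_zero σ).2 hc), fun i => ?_⟩, ?_⟩
      · have h1 : v = fun i => l * (fun i => σ (b i)) i := funext hvl
        rw [h1, hom_scale l _ (hY.hom i), aeval_map_hom, hgc, map_mul, hmap]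
        ring
      · constructor
        intro z
        obtain ⟨y, rfl⟩ := hσ z
        obtain ⟨p, hp, hpy⟩ := halg.isAlgebraic y
        refine ⟨p, hp, ?_⟩
        have h2 : Polynomial.aeval (σ y) p = σ (Polynomial.aeval y p) := by
          rw [Polynomial.aeval_def, Polynomial.aeval_def, Polynomial.eval₂_eq_sum_range,
            Polynomial.eval₂_eq_sum_range, map_sum]
          refine Finset.sum_congr rfl fun i _ => ?_
          rw [map_mul, map_pow, hmap]
        rw [h2, hpy, map_zero]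
    refine hm2 (m1 + m2) (by omega) N' L v g e' hcov _ fun P hP => ?_
    refine hram L v hv.point (fun i => ?_) P hP
    have h1 : v = fun i => l * (fun i => σ (b i)) i := funext hvl
    rw [h1, hom_scale l _ (hom_bind g e' hY.hom (hX.hom i)), aeval_map_hom]
    exact mul_ne_zero (pow_ne_zero _ hl) ((map_ne_zero σ).2 (hne i))

end Pool.Agent.Q96.LS
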